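import Mathlib

namespace Pool.Agent.Results.MP_3c8d56_co.CoverCounter

open SimpleGraph

/-- The clique graph: vertices are the inclusion-maximal cliques, two distinct ones being
adjacent when they share a vertex. -/
def cliqueGraph {V : Type} (G : SimpleGraph V) :
    SimpleGraph {s : Set V // Maximal G.IsClique s} where
  Adj s t := s ≠ t ∧ (s.1 ∩ t.1).Nonempty
  symm := ⟨fun _ _ h => ⟨h.1.symm, Set.inter_comm _ _ ▸ h.2⟩⟩
  loopless := ⟨fun _ h => h.1 rfl⟩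

/-- The closed neighbourhood. -/
def closedNbhd {V : Type} (G : SimpleGraph V) (v : V) : Set V := insert v (G.neighborSet v)

/-- `p` restricted to each closed neighbourhood is an isomorphism onto the closed neighbourhood
of the image vertex. -/
def IsTriCover {V W : Type} {H : SimpleGraph W} {G : SimpleGraph V} (p : H →g G) : Prop :=
  ∀ v, Set.BijOn p (closedNbhd H v) (closedNbhd G (p v)) ∧
    ∀ a ∈ closedNbhd H v, ∀ b ∈ closedNbhd H v, H.Adj a b ↔ G.Adj (p a) (p b)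

theorem iso_of {n m : ℕ} (G : SimpleGraph (Fin n)) (K : SimpleGraph (Fin (m + 1)))
    (cl : Fin (m + 1) → List (Fin n))
    (h1 : ∀ i, ∀ a ∈ cl i, ∀ b ∈ cl i, a ≠ b → G.Adj a b)
    (h2 : ∀ i j, (∀ a ∈ cl i, a ∈ cl j) → i = j)
    (h3 : ∀ a, ∃ i, a ∈ cl i)
    (h4 : ∀ a b, G.Adj a b → ∃ i, a ∈ cl i ∧ b ∈ cl i ∧ ∀ c, G.Adj a c → G.Adj b c → c ∈ cl i)
    (h5 : ∀ i j, K.Adj i j ↔ i ≠ j ∧ ∃ a ∈ cl i, a ∈ cl j) :
    Nonempty (K ≃g cliqueGraph G) := by
  have hc : ∀ i, G.IsClique {a | a ∈ cl i} := fun i a ha b hb hab => h1 i a ha b hb hab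
  have hcov : ∀ s, G.IsClique s → ∃ i, s ⊆ {a | a ∈ cl i} := by
    intro s hs
    rcases s.subsingleton_or_nontrivial with h | ⟨a, ha, b, hb, hab⟩
    · rcases h.eq_empty_or_singleton with rfl | ⟨a, rfl⟩
      · exact ⟨0, by simp⟩
      · simpa using h3 a
    · obtain ⟨i, e1, e2, e3⟩ := h4 a b (hs ha hb hab)
      refine ⟨i, fun c hc => ?_⟩
      by_cases ca : a = c
      · exact ca ▸ e1
      by_cases cb : b = c
      · exact cb ▸ e2
      exact e3 c (hs ha hc ca) (hs hb hc cb)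
  have hmax : ∀ i, Maximal G.IsClique {a | a ∈ cl i} := by
    refine fun i => ⟨hc i, fun s hs hle => ?_⟩
    obtain ⟨j, hj⟩ := hcov s hs
    rw [h2 i j fun a ha => hj (hle ha)]
    exact hj
  let f : Fin (m + 1) → {s : Set (Fin n) // Maximal G.IsClique s} := fun i => ⟨_, hmax i⟩
  have finj : Function.Injective f := fun i j h => h2 i j fun a ha => by
    have : ({a | a ∈ cl i} : Set (Fin n)) = {a | a ∈ cl j} := congrArg Subtype.val h
    exact (Set.ext_iff.1 this a).1 ha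
  have fsurj : Function.Surjective f := by
    rintro ⟨s, hs⟩
    obtain ⟨i, hi⟩ := hcov s hs.1
    exact ⟨i, Subtype.ext (Set.Subset.antisymm (hs.2 (hc i) hi) hi)⟩
  refine ⟨⟨Equiv.ofBijective f ⟨finj, fsurj⟩, fun {i j} => ?_⟩⟩
  rw [h5]
  exact and_congr finj.ne_iff Iff.rfl

def mk {n : ℕ} (es : List (Fin n × Fin n)) : SimpleGraph (Fin n) where
  Adj u v := u ≠ v ∧ ((u, v) ∈ es ∨ (v, u) ∈ es)
  symm := ⟨fun _ _ h => ⟨h.1.symm, h.2.symm⟩⟩
  loopless := ⟨fun _ h => h.1 rfl⟩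

instance {n : ℕ} (es : List (Fin n × Fin n)) : DecidableRel (mk es).Adj :=
  fun u v => inferInstanceAs (Decidable (u ≠ v ∧ ((u, v) ∈ es ∨ (v, u) ∈ es)))

abbrev G0 : SimpleGraph (Fin 8) := mk [(0,1),(1,2),(2,3),(3,0),(0,4),(0,5),(4,5),(5,6),(6,7),(7,4)]

abbrev H0 : SimpleGraph (Fin 16) := mk
  [(0,1),(8,9),(1,2),(9,10),(2,3),(10,11),(3,8),(11,0),(0,4),(8,12),(0,5),(8,13),(4,5),(12,13),(5,6),(13,14),(6,7),(14,15),(7,4),(15,12)]

def cl0 (i : Fin 8) : List (Fin 8) := [[0,4,5],[5,6],[6,7],[7,4],[0,1],[3,0],[2,3],[1,2]].getD i.val []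

def cl1 (i : Fin 16) : List (Fin 16) :=
  [[0,4,5],[5,6],[6,7],[7,4],[0,1],[3,8],[2,3],[1,2],[8,12,13],[13,14],[14,15],[15,12],[8,9],[11,0],[10,11],[9,10]].getD i.val []

def K1 : SimpleGraph (Fin 16) where
  Adj i j := i ≠ j ∧ ∃ a ∈ cl1 i, a ∈ cl1 j
  symm := ⟨fun _ _ ⟨h, a, h1, h2⟩ => ⟨h.symm, a, h2, h1⟩⟩
  loopless := ⟨fun _ h => h.1 rfl⟩

instance : DecidableRel K1.Adj :=
  fun i j => inferInstanceAs (Decidable (i ≠ j ∧ ∃ a ∈ cl1 i, a ∈ cl1 j))

def p0 : H0 →g G0 := ⟨fun v => ⟨v.val % 8, Nat.mod_lt _ (by norm_num)⟩, by decide +kernel⟩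

theorem conn_of {n : ℕ} (G : SimpleGraph (Fin (n + 1))) (rk : Fin (n + 1) → ℕ)
    (h : ∀ x, x = 0 ∨ ∃ y, G.Adj x y ∧ rk y < rk x) : G.Connected := by
  have key : ∀ m x, rk x < m → G.Reachable x 0 := by
    intro m
    induction m with
    | zero => intro x h; omega
    | succ m ih =>
      intro x hm
      rcases h x with rfl | ⟨y, h1, h2⟩
      · rfl
      · exact h1.reachable.trans (ih y (by omega))
  exact ⟨fun u v => (key _ u (Nat.lt_succ_self _)).trans (key _ v (Nat.lt_succ_self _)).symm⟩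

theorem cover : IsTriCover p0 := by
  intro v
  simp only [Set.BijOn, Set.MapsTo, Set.InjOn, Set.SurjOn, Set.subset_def, closedNbhd,
    Set.mem_insert_iff, mem_neighborSet, Set.mem_image]
  revert v
  set_option synthInstance.maxSize 4000 in decide +kernel

theorem noiso : IsEmpty (cliqueGraph H0 ≃g H0) := by
  refine ⟨fun f => ?_⟩
  obtain ⟨g⟩ := iso_of H0 K1 cl1 (by decide +kernel) (by decide +kernel) (by decide +kernel)
    (by decide +kernel) fun _ _ => Iff.rfl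
  let φ := g.trans f
  have key : ∀ v a : Fin 16, H0.Adj v a → ∀ b, H0.Adj v b → a ≠ b → ∀ e, H0.Adj a e →
      H0.Adj b e → e ≠ v → ∀ c, H0.Adj v c → c ≠ a → c ≠ b → ∀ d, H0.Adj v d → d ≠ a → d ≠ b →
      d = c := by
    set_option synthInstance.maxSize 4000 in decide +kernel
  have A : ∀ a b, K1.Adj a b → H0.Adj (φ a) (φ b) := fun a b h => φ.map_rel_iff.2 h
  have N : ∀ a b, a ≠ b → φ a ≠ φ b := fun a b h => φ.injective.ne h
  exact N 13 4 (by decide) (key (φ 0) (φ 1) (A _ _ (by decide)) (φ 3) (A _ _ (by decide))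
    (N _ _ (by decide)) (φ 2) (A _ _ (by decide)) (A _ _ (by decide)) (N _ _ (by decide))
    (φ 4) (A _ _ (by decide)) (N _ _ (by decide)) (N _ _ (by decide))
    (φ 13) (A _ _ (by decide)) (N _ _ (by decide)) (N _ _ (by decide)))

theorem result : ∃ (m n : ℕ) (H : SimpleGraph (Fin m)) (G : SimpleGraph (Fin n)) (p : H →g G),
    H.Connected ∧ G.Connected ∧ IsTriCover p ∧
    Nonempty (cliqueGraph G ≃g G) ∧ IsEmpty (cliqueGraph H ≃g H) := by
  refine ⟨16, 8, H0, G0, p0, conn_of _ Fin.val (by decide +kernel),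
    conn_of _ Fin.val (by decide +kernel), cover, ?_, noiso⟩
  obtain ⟨g⟩ := iso_of G0 G0 cl0 (by decide +kernel) (by decide +kernel) (by decide +kernel)
    (by decide +kernel) (by decide +kernel)
  exact ⟨g.symm⟩

end Pool.Agent.Results.MP_3c8d56_co.CoverCounter
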